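import Pool.Agent.Q100.UPMain

/-!
# MP_17402e: `ℵ`-injectivity of `ℒ_∞` ultraproducts over good ultrafilters

The definitions are in `Pool/Agent/Q100/UPDefs.lean`.
-/

set_option autoImplicit false

namespace Pool.Agent.Results.MP_17402e_an.LinftyUltraproducts

open Q100.UP

universe u v w

/-- If the ultraproduct of a family of Banach spaces over a countably incomplete `κ`-good
ultrafilter (`κ` an infinite cardinal) is an `ℒ_{∞,lam}`-space, then it is `κ`-injective, and even
universally `(lam, κ)`-injective. -/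
theorem result (𝕜 : Type) [RCLike 𝕜] (κ : Cardinal.{w}) (hκ : Cardinal.aleph0 ≤ κ)
    {I : Type u} (U : Ultrafilter I) (hU : CountablyIncomplete U) (hG : Good U κ)
    (X : I → Type v) [∀ i, NormedAddCommGroup (X i)] [∀ i, NormedSpace 𝕜 (X i)]
    (lam : ℝ) (hlam : 1 ≤ lam) (hX : IsLinfty 𝕜 (Ultraproduct 𝕜 U X) lam) :
    AlephInjective 𝕜 (Ultraproduct 𝕜 U X) κ ∧
      UnivInjective 𝕜 (Ultraproduct 𝕜 U X) lam κ := by
  have h := univ_of_linfty hU hG (zero_le_one.trans hlam) hX
  exact ⟨aleph_of_univ hκ h, h⟩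

end Pool.Agent.Results.MP_17402e_an.LinftyUltraproducts
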